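import Pool.Agent.Helper923.PNT

set_option autoImplicit false

/-!
# Primes at which a postcritical orbit of `x ^ m + a` meets the critical point
-/

namespace Pool.Agent.TH52.PO

open Finset Filter Topology ArithmeticFunction
open Pool.Agent.Helper923.PNT (pnt_residueClass pi_tendsto)

/-- the polynomial `x ^ m + a` -/
def f (m : ℕ) (a : ℤ) (x : ℤ) : ℤ := x ^ m + a

/-- `S(x ^ m + a, α)`: the primes `p` such that some iterate of `α` is congruent modulo `p` to `0`,
the only critical point of `x ^ m + a`. -/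
def S (m : ℕ) (a α : ℤ) : Set ℕ := {p | p.Prime ∧ ∃ n : ℕ, (p : ℤ) ∣ (f m a)^[n] α}

lemma pow_inj {p m : ℕ} [Fact p.Prime] (hm : m ≠ 0) (hc : Nat.Coprime (p - 1) m)
    (a : ZMod p) : Function.Injective (fun x : ZMod p => x ^ m + a) := by
  intro x y hxy
  have h : x ^ m = y ^ m := add_right_cancel hxy
  by_cases hy : y = 0
  · rw [hy, zero_pow hm] at h
    rw [hy]
    exact pow_eq_zero_iff hm |>.1 h
  · have hx : x ≠ 0 := by
      rintro rfl
      rw [zero_pow hm] at h
      exact hy (pow_eq_zero_iff hm |>.1 h.symm)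
    have h1 : (x / y) ^ m = 1 := by
      rw [div_pow, h, div_self (pow_ne_zero _ hy)]
    have h2 : (x / y) ^ (p - 1) = 1 := ZMod.pow_card_sub_one_eq_one (div_ne_zero hx hy)
    have h3 : orderOf (x / y) ∣ 1 := by
      rw [← hc]
      exact Nat.dvd_gcd (orderOf_dvd_of_pow_eq_one h2) (orderOf_dvd_of_pow_eq_one h1)
    have h4 : x / y = 1 := orderOf_eq_one_iff.1 (Nat.dvd_one.1 h3)
    exact (div_eq_one_iff_eq hy).1 h4

lemma cast_iter {p : ℕ} (m : ℕ) (a : ℤ) (n : ℕ) (x : ℤ) :
    (((f m a)^[n] x : ℤ) : ZMod p) = (fun y : ZMod p => y ^ m + (a : ZMod p))^[n] (x : ZMod p) := by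
  induction n with
  | zero => rfl
  | succ n ih =>
    rw [Function.iterate_succ_apply', Function.iterate_succ_apply', ← ih]
    simp [f]

/-- if `gcd(m, p - 1) = 1`, the prime `p` belongs to `S`. -/
theorem mem_S {p m : ℕ} (hp : p.Prime) (hm : m ≠ 0) (hc : Nat.Coprime (p - 1) m) (a : ℤ) (j : ℕ) :
    p ∈ S m a ((f m a)^[j] 0) := by
  have : Fact p.Prime := ⟨hp⟩
  set g : ZMod p → ZMod p := fun y => y ^ m + (a : ZMod p) with hg
  have hinj : Function.Injective g := pow_inj hm hc _
  let e : Equiv.Perm (ZMod p) := Equiv.ofBijective g (Finite.injective_iff_bijective.1 hinj)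
  have he : ∀ x, e x = g x := fun _ => rfl
  have hpos : 0 < orderOf e := orderOf_pos e
  have hit : ∀ k : ℕ, g^[orderOf e * k] 0 = 0 := by
    intro k
    have h1 : (⇑e)^[orderOf e * k] = ⇑(e ^ (orderOf e * k)) := Equiv.Perm.iterate_eq_pow e _
    have h2 : (⇑e)^[orderOf e * k] = g^[orderOf e * k] := rfl
    rw [← h2, h1, pow_mul, pow_orderOf_eq_one, one_pow]
    rfl
  refine ⟨hp, orderOf e * j - j, ?_⟩
  rw [← ZMod.intCast_zmod_eq_zero_iff_dvd, ← Function.iterate_add_apply,
    Nat.sub_add_cancel (Nat.le_mul_of_pos_left j hpos), cast_iter]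
  simpa using hit j

/-- the orbit of the critical value never meets `0`. -/
theorem orbit_ne_zero {m : ℕ} (hm : Odd m) {a : ℤ} (ha : a ≠ 0) (n : ℕ) :
    (f m a)^[n + 1] 0 ≠ 0 := by
  rcases lt_or_gt_of_ne ha with h | h
  · have : ∀ n : ℕ, (f m a)^[n + 1] 0 < 0 := by
      intro n
      induction n with
      | zero =>
        simp only [zero_add, Function.iterate_one, f]
        rw [zero_pow (by rintro rfl; exact absurd hm (by decide))]
        linarith
      | succ n ih =>
        rw [Function.iterate_succ_apply']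
        have := hm.pow_neg ih
        simp only [f]
        linarith
    exact (this n).ne
  · have : ∀ n : ℕ, 0 < (f m a)^[n + 1] 0 := by
      intro n
      induction n with
      | zero =>
        simp only [zero_add, Function.iterate_one, f]
        rw [zero_pow (by rintro rfl; exact absurd hm (by decide))]
        linarith
      | succ n ih =>
        rw [Function.iterate_succ_apply']
        have := pow_pos ih m
        simp only [f]
        linarith
    exact (this n).ne'

lemma residue_sum_le (M : ℕ) (a : ZMod M) (N : ℕ) :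
    ∑ k ∈ Icc 1 N, vonMangoldt.residueClass a k ≤
      (Chebyshev.psi N - Chebyshev.theta N) +
      (((range (N + 1)).filter (fun q : ℕ => q.Prime ∧ (q : ZMod M) = a)).card : ℝ) *
        Real.log N := by
  classical
  rw [Chebyshev.psi_sub_theta_eq_sum_not_prime, Nat.floor_natCast]
  have e0 : Icc 1 N = Ioc 0 N := by ext; simp [Finset.mem_Icc, Finset.mem_Ioc]; omega
  rw [e0]
  rw [← Finset.sum_filter_add_sum_filter_not (Ioc 0 N) (fun r => r.Prime)
    (fun k => vonMangoldt.residueClass a k), add_comm]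
  apply add_le_add
  · apply Finset.sum_le_sum
    intro r _
    exact vonMangoldt.residueClass_le _ _
  · have h1 : ∑ r ∈ (Ioc 0 N).filter (fun r => r.Prime), vonMangoldt.residueClass a r =
        ∑ r ∈ ((Ioc 0 N).filter (fun r => r.Prime)).filter (fun r : ℕ => (r : ZMod M) = a),
          Real.log r := by
      rw [Finset.sum_filter (p := fun r : ℕ => (r : ZMod M) = a)]
      apply Finset.sum_congr rfl
      intro r hr
      rw [Finset.mem_filter] at hr
      split_ifs with h
      · rw [vonMangoldt.residueClass, Set.indicator_of_mem]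
        · exact vonMangoldt_apply_prime hr.2
        · exact h
      · rw [vonMangoldt.residueClass, Set.indicator_of_notMem]
        exact h
    rw [h1]
    have h2 : ((Ioc 0 N).filter (fun r => r.Prime)).filter (fun r : ℕ => (r : ZMod M) = a) ⊆
        (range (N + 1)).filter (fun q : ℕ => q.Prime ∧ (q : ZMod M) = a) := by
      intro r hr
      rw [Finset.mem_filter, Finset.mem_filter, Finset.mem_Ioc] at hr
      rw [Finset.mem_filter, Finset.mem_range]
      exact ⟨by omega, hr.1.2, hr.2⟩
    calc ∑ r ∈ ((Ioc 0 N).filter (fun r => r.Prime)).filter (fun r : ℕ => (r : ZMod M) = a),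
          Real.log r ≤ ∑ r ∈ (range (N + 1)).filter (fun q : ℕ => q.Prime ∧ (q : ZMod M) = a),
          Real.log N := by
          refine (Finset.sum_le_sum_of_subset_of_nonneg h2 ?_).trans ?_
          · intro r hr _
            exact Real.log_natCast_nonneg _
          · apply Finset.sum_le_sum
            intro r hr
            rw [Finset.mem_filter, Finset.mem_range] at hr
            apply Real.log_le_log
            · exact_mod_cast hr.2.1.pos
            · exact_mod_cast (by omega : r ≤ N)
      _ = _ := by rw [Finset.sum_const, nsmul_eq_mul]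

theorem psi_theta_tendsto :
    Tendsto (fun x : ℝ => (Chebyshev.psi x - Chebyshev.theta x) / x) atTop (𝓝 0) := by
  obtain ⟨C, hC⟩ := Chebyshev.psi_sub_theta_le_mul_sqrt
  have h2 : Tendsto (fun x : ℝ => C * (Real.sqrt x)⁻¹) atTop (𝓝 0) := by
    have := (tendsto_inv_atTop_zero.comp Real.tendsto_sqrt_atTop).const_mul C
    simpa [Function.comp_def] using this
  refine squeeze_zero' ?_ ?_ h2
  · filter_upwards [eventually_gt_atTop 0] with x hx
    exact div_nonneg (sub_nonneg.mpr (Chebyshev.theta_le_psi x)) hx.le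
  · filter_upwards [eventually_gt_atTop 0] with x hx
    rw [div_le_iff₀ hx]
    refine (hC x).trans (le_of_eq ?_)
    have hs : 0 < Real.sqrt x := Real.sqrt_pos.mpr hx
    have hx2 : Real.sqrt x * Real.sqrt x = x := Real.mul_self_sqrt hx.le
    field_simp
    rw [sq, hx2]

theorem count_ge (m : ℕ) [NeZero m] (U : Finset (ZMod m)) (hU : ∀ u ∈ U, IsUnit u) (ε : ℝ)
    (hε : 0 < ε) :
    ∀ᶠ N : ℕ in atTop, ((U.card : ℝ) / m.totient - ε) * (Nat.primeCounting N : ℝ) ≤
      (((range (N + 1)).filter fun p : ℕ => p.Prime ∧ (p : ZMod m) ∈ U).card : ℝ) := by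
  classical
  have hA : ∀ u ∈ U, Tendsto (fun N : ℕ => (∑ k ∈ Icc 1 N, vonMangoldt.residueClass u k) / (N : ℝ))
      atTop (𝓝 ((m.totient : ℝ)⁻¹)) := by
    intro u hu
    have := (pnt_residueClass (q := m) (hU u hu)).comp (tendsto_natCast_atTop_atTop (R := ℝ))
    simpa [Function.comp_def] using this
  have hB : Tendsto (fun N : ℕ => (Chebyshev.psi N - Chebyshev.theta N) / (N : ℝ)) atTop (𝓝 0) :=
    psi_theta_tendsto.comp (tendsto_natCast_atTop_atTop (R := ℝ))
  have hG : Tendsto (fun N : ℕ => (Nat.primeCounting N : ℝ) * Real.log N / N) atTop (𝓝 1) := by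
    have := pi_tendsto.comp (tendsto_natCast_atTop_atTop (R := ℝ))
    simpa [Function.comp_def] using this
  have hF : Tendsto (fun N : ℕ => (∑ u ∈ U, (∑ k ∈ Icc 1 N, vonMangoldt.residueClass u k) / (N : ℝ))
      - (U.card : ℝ) * ((Chebyshev.psi N - Chebyshev.theta N) / (N : ℝ))) atTop
      (𝓝 ((U.card : ℝ) / m.totient)) := by
    have h1 := (tendsto_finsetSum U hA).sub (hB.const_mul (U.card : ℝ))
    simp only [sum_const, nsmul_eq_mul, mul_zero, sub_zero] at h1
    rw [div_eq_mul_inv]
    exact h1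
  have hH := hF.sub (hG.const_mul ((U.card : ℝ) / m.totient - ε))
  have hpos : (0 : ℝ) < (U.card : ℝ) / m.totient - ((U.card : ℝ) / m.totient - ε) * 1 := by
    linarith
  filter_upwards [hH.eventually_const_lt hpos, eventually_ge_atTop 2] with N h1 h2
  have hNpos : (0 : ℝ) < N := by
    have : (2 : ℝ) ≤ N := by exact_mod_cast h2
    linarith
  have hlog : 0 < Real.log N := Real.log_pos (by exact_mod_cast (by omega : 1 < N))
  set c : ℝ := (((range (N + 1)).filter fun p : ℕ => p.Prime ∧ (p : ZMod m) ∈ U).card : ℝ) with hc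
  have hsum : (∑ u ∈ U, (((range (N + 1)).filter
      (fun q : ℕ => q.Prime ∧ (q : ZMod m) = u)).card : ℝ)) = c := by
    rw [hc, ← Nat.cast_sum]
    congr 1
    rw [Finset.card_eq_sum_card_fiberwise (f := fun p : ℕ => (p : ZMod m))
      (s := (range (N + 1)).filter fun p : ℕ => p.Prime ∧ (p : ZMod m) ∈ U) (t := U)
      (fun p hp => mem_coe.2 (mem_filter.1 (mem_coe.1 hp)).2.2)]
    apply sum_congr rfl
    intro u hu
    congr 1
    ext q
    simp only [mem_filter]
    constructor
    · rintro ⟨h1, h2, h3⟩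
      exact ⟨⟨h1, h2, h3 ▸ hu⟩, h3⟩
    · rintro ⟨⟨h1, h2, -⟩, h3⟩
      exact ⟨h1, h2, h3⟩
  have h3 : (∑ u ∈ U, (∑ k ∈ Icc 1 N, vonMangoldt.residueClass u k)) ≤
      (U.card : ℝ) * (Chebyshev.psi N - Chebyshev.theta N) + c * Real.log N := by
    calc (∑ u ∈ U, (∑ k ∈ Icc 1 N, vonMangoldt.residueClass u k)) ≤
        ∑ u ∈ U, ((Chebyshev.psi N - Chebyshev.theta N) +
          (((range (N + 1)).filter (fun q : ℕ => q.Prime ∧ (q : ZMod m) = u)).card : ℝ) *
            Real.log N) := sum_le_sum fun u _ => residue_sum_le m u N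
      _ = (U.card : ℝ) * (Chebyshev.psi N - Chebyshev.theta N) + c * Real.log N := by
        rw [sum_add_distrib, sum_const, nsmul_eq_mul, ← Finset.sum_mul, hsum]
  have h4 : (∑ u ∈ U, (∑ k ∈ Icc 1 N, vonMangoldt.residueClass u k) / (N : ℝ))
      - (U.card : ℝ) * ((Chebyshev.psi N - Chebyshev.theta N) / (N : ℝ)) ≤
      c * Real.log N / N := by
    rw [← Finset.sum_div, ← mul_div_assoc, ← sub_div]
    apply div_le_div_of_nonneg_right _ hNpos.le
    linarith
  have h5 : ((U.card : ℝ) / m.totient - ε) * ((Nat.primeCounting N : ℝ) * Real.log N / N) ≤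
      c * Real.log N / N := by linarith
  have h6 : ((U.card : ℝ) / m.totient - ε) * ((Nat.primeCounting N : ℝ) * Real.log N / N) =
      (((U.card : ℝ) / m.totient - ε) * (Nat.primeCounting N : ℝ)) * (Real.log N / N) := by ring
  have h7 : c * Real.log N / N = c * (Real.log N / N) := by ring
  rw [h6, h7] at h5
  exact le_of_mul_le_mul_right h5 (div_pos hlog hNpos)

/-- the residue classes `u` modulo `m` such that `u` and `u - 1` are units. -/
noncomputable def U (m : ℕ) [NeZero m] : Finset (ZMod m) :=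
  open Classical in univ.filter fun u => IsUnit u ∧ IsUnit (u - 1)

open Classical in
theorem main (m : ℕ) [NeZero m] (a : ℤ) (j : ℕ) (ε : ℝ) (hε : 0 < ε) :
    ∀ᶠ N : ℕ in atTop, (((U m).card : ℝ) / m.totient - ε) * (Nat.primeCounting N : ℝ) ≤
      (((range (N + 1)).filter fun p : ℕ => p ∈ S m a ((f m a)^[j] 0)).card : ℝ) := by
  filter_upwards [count_ge m (U m) (fun u hu => (mem_filter.1 hu).2.1) ε hε] with N hN
  refine hN.trans ?_
  have : ((range (N + 1)).filter fun p : ℕ => p.Prime ∧ (p : ZMod m) ∈ U m).card ≤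
      ((range (N + 1)).filter fun p : ℕ => p ∈ S m a ((f m a)^[j] 0)).card := by
    apply card_le_card
    intro p hp
    obtain ⟨hpN, hpp, hpU⟩ := mem_filter.1 hp
    refine mem_filter.2 ⟨hpN, mem_S hpp (NeZero.ne m) ?_ a j⟩
    have h1 := (mem_filter.1 hpU).2.2
    have h2 : (p : ZMod m) - 1 = ((p - 1 : ℕ) : ZMod m) := by
      rw [Nat.cast_sub hpp.one_lt.le, Nat.cast_one]
    rw [h2] at h1
    exact (ZMod.isUnit_iff_coprime _ _).1 h1
  exact_mod_cast this

theorem U_prime (l : ℕ) [Fact l.Prime] : (U l).card = l - 2 := by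
  classical
  have h1 : U l = (univ.erase (0 : ZMod l)).erase 1 := by
    ext u
    simp only [U, mem_filter, mem_univ, true_and, isUnit_iff_ne_zero, mem_erase, and_true, ne_eq,
      sub_eq_zero]
    tauto
  rw [h1, card_erase_of_mem, card_erase_of_mem (mem_univ _), card_univ, ZMod.card]
  · omega
  · exact mem_erase.2 ⟨one_ne_zero, mem_univ _⟩

theorem U_pos (m : ℕ) [NeZero m] (hm : Odd m) : 0 < (U m).card := by
  classical
  apply card_pos.2
  refine ⟨((2 : ℕ) : ZMod m), mem_filter.2 ⟨mem_univ _, ?_, ?_⟩⟩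
  · rw [ZMod.isUnit_iff_coprime]
    exact (Nat.coprime_two_left).2 hm
  · have : ((2 : ℕ) : ZMod m) - 1 = 1 := by
      push_cast
      ring
    rw [this]
    exact isUnit_one

end Pool.Agent.TH52.PO
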